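import Mathlib

set_option autoImplicit false

open Finset

namespace Pool.Agent.H31

theorem sum_multichoose (n k : ℕ) :
    ∑ j ∈ range (k+1), Nat.multichoose n j = Nat.multichoose (n+1) k := by
  induction k with
  | zero => simp
  | succ k ih => rw [Finset.sum_range_succ, ih, Nat.multichoose_succ_succ]; ring

theorem addChar_sum {ι : Type*} (ψ : AddChar (ZMod 6) ℂ) (s : Finset ι) (f : ι → ZMod 6) :
    ψ (∑ i ∈ s, f i) = ∏ i ∈ s, ψ (f i) := by
  classical
  induction s using Finset.induction_on with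
  | empty => simp
  | insert a s ha ih => rw [Finset.sum_insert ha, Finset.prod_insert ha, AddChar.map_add_eq_mul, ih]

theorem char_orth (m : ℕ) (b b' : Fin m → ZMod 6) :
    ∑ a : Fin m → ZMod 6, (starRingEnd ℂ) (ZMod.stdAddChar (∑ i, a i * b i) : ℂ) *
        (ZMod.stdAddChar (∑ i, a i * b' i) : ℂ)
      = if b = b' then (6:ℂ)^m else 0 := by
  classical
  have h1 : ∀ a : Fin m → ZMod 6,
      (starRingEnd ℂ) (ZMod.stdAddChar (∑ i, a i * b i) : ℂ) *
        (ZMod.stdAddChar (∑ i, a i * b' i) : ℂ)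
      = ∏ i, (ZMod.stdAddChar (a i * (b' i - b i)) : ℂ) := by
    intro a
    rw [← AddChar.map_neg_eq_conj, ← AddChar.map_add_eq_mul, ← addChar_sum]
    congr 1
    rw [← Finset.sum_neg_distrib, ← Finset.sum_add_distrib]
    refine Finset.sum_congr rfl fun i _ => by ring
  simp_rw [h1]
  have h2 := (Finset.prod_univ_sum (fun _ : Fin m => (univ : Finset (ZMod 6)))
    (fun i (c : ZMod 6) => (ZMod.stdAddChar (c * (b' i - b i)) : ℂ))).symm
  rw [Fintype.piFinset_univ] at h2
  rw [h2]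
  have h3 : ∀ i : Fin m, ∑ c : ZMod 6, (ZMod.stdAddChar (c * (b' i - b i)) : ℂ)
      = if b' i - b i = 0 then (6:ℂ) else 0 := by
    intro i
    rw [AddChar.sum_mulShift _ (ZMod.isPrimitive_stdAddChar 6)]
    simp
  simp_rw [h3]
  by_cases hbb : b = b'
  · subst hbb
    simp
  · rw [if_neg hbb]
    obtain ⟨i, hi⟩ := Function.ne_iff.mp hbb
    apply Finset.prod_eq_zero (mem_univ i)
    rw [if_neg]
    intro h
    exact hi (sub_eq_zero.mp h).symm

/-- Parseval for the character matrix. -/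
theorem parseval (m : ℕ) (v : (Fin m → ZMod 6) → ℂ) :
    ∑ a : Fin m → ZMod 6, ‖∑ b : Fin m → ZMod 6, (ZMod.stdAddChar (∑ i, a i * b i) : ℂ) * v b‖ ^ 2
      = (6:ℝ)^m * ∑ b, ‖v b‖ ^ 2 := by
  classical
  have key : ((∑ a : Fin m → ZMod 6, ‖∑ b : Fin m → ZMod 6,
      (ZMod.stdAddChar (∑ i, a i * b i) : ℂ) * v b‖ ^ 2 : ℝ) : ℂ)
      = (((6:ℝ)^m * ∑ b, ‖v b‖ ^ 2 : ℝ) : ℂ) := by
    push_cast
    calc ∑ a : Fin m → ZMod 6, ((‖∑ b : Fin m → ZMod 6,
            (ZMod.stdAddChar (∑ i, a i * b i) : ℂ) * v b‖ : ℂ)) ^ 2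
        = ∑ a : Fin m → ZMod 6, ∑ b, ∑ b', (starRingEnd ℂ) (v b) * v b' *
            ((starRingEnd ℂ) (ZMod.stdAddChar (∑ i, a i * b i) : ℂ) *
              (ZMod.stdAddChar (∑ i, a i * b' i) : ℂ)) := by
          refine Finset.sum_congr rfl fun a _ => ?_
          rw [← Complex.conj_mul', map_sum, Finset.sum_mul_sum]
          refine Finset.sum_congr rfl fun b _ => Finset.sum_congr rfl fun b' _ => ?_
          rw [map_mul]; ring
      _ = ∑ b, ∑ b', (starRingEnd ℂ) (v b) * v b' *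
            (if b = b' then (6:ℂ)^m else 0) := by
          rw [Finset.sum_comm]
          refine Finset.sum_congr rfl fun b _ => ?_
          rw [Finset.sum_comm]
          refine Finset.sum_congr rfl fun b' _ => ?_
          rw [← Finset.mul_sum, char_orth]
      _ = 6 ^ m * ∑ b, (‖v b‖ : ℂ) ^ 2 := by
          rw [Finset.mul_sum]
          refine Finset.sum_congr rfl fun b _ => ?_
          simp only [mul_ite, mul_zero, Finset.sum_ite_eq, Finset.mem_univ, if_true]
          rw [Complex.conj_mul']; ring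
  exact_mod_cast key

/-- Taylor approximation of the exponential kernel. -/
theorem taylor_bound (m : ℕ) (hm : 1 ≤ m) (t : ℝ) (ht : |t| ≤ ((m:ℝ)+1)/8) :
    ‖Complex.exp (2 * Real.pi * Complex.I * t / 6) -
      ∑ j ∈ range (m+1), (2 * Real.pi * Complex.I * t / 6)^j / (j.factorial : ℂ)‖ ≤ 1/2 := by
  have hpi : Real.pi < 4 := by linarith [Real.pi_le_four, Real.pi_lt_d2]
  have hpi0 := Real.pi_pos
  set z : ℂ := 2 * Real.pi * Complex.I * t / 6 with hz
  have hnorm : ‖z‖ = Real.pi * |t| / 3 := by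
    rw [hz]
    simp only [norm_div, norm_mul, Complex.norm_I, Complex.norm_real, Real.norm_eq_abs,
      abs_of_pos hpi0, Complex.norm_ofNat]
    ring
  have hz6 : ‖z‖ ≤ ((m:ℝ)+1)/6 := by
    rw [hnorm]
    have : Real.pi * |t| ≤ 4 * (((m:ℝ)+1)/8) := by
      apply mul_le_mul hpi.le ht (abs_nonneg _) (by norm_num)
    linarith
  have hb := Complex.exp_bound' (x := z) (n := m+1) (by
    rw [div_le_iff₀ (by positivity)]
    push_cast
    linarith)
  refine hb.trans ?_
  have h1 : (6 * ‖z‖) ^ (m+1) / ((m+1).factorial : ℝ) ≤ Real.exp (6 * ‖z‖) :=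
    Real.pow_div_factorial_le_exp (6 * ‖z‖) (by positivity) _
  have h2 : Real.exp (6 * ‖z‖) ≤ (3:ℝ)^(m+1) := by
    calc Real.exp (6 * ‖z‖) ≤ Real.exp ((m:ℝ)+1) := Real.exp_le_exp.mpr (by linarith)
      _ = (Real.exp 1)^(m+1) := by rw [← Real.exp_nat_mul]; push_cast; ring_nf
      _ ≤ 3^(m+1) := by
        apply pow_le_pow_left₀ (Real.exp_pos _).le
        exact Real.exp_one_lt_three.le
  have h3 : ‖z‖ ^ (m+1) / ((m+1).factorial : ℝ) ≤ (1/2)^(m+1) := by
    have h4 : (6 * ‖z‖) ^ (m+1) / ((m+1).factorial : ℝ)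
        = 6^(m+1) * (‖z‖ ^ (m+1) / ((m+1).factorial : ℝ)) := by
      rw [mul_pow]; ring
    rw [h4] at h1
    have h5 : (3:ℝ)^(m+1) = 6^(m+1) * (1/2)^(m+1) := by
      rw [← mul_pow]; norm_num
    have h6 : (6:ℝ)^(m+1) * (‖z‖ ^ (m+1) / ((m+1).factorial : ℝ)) ≤ 6^(m+1) * (1/2)^(m+1) := by
      rw [← h5]; exact h1.trans h2
    exact le_of_mul_le_mul_left h6 (by positivity)
  have h7 : ((1:ℝ)/2)^(m+1) ≤ 1/4 := by
    calc ((1:ℝ)/2)^(m+1) ≤ (1/2)^2 :=
          pow_le_pow_of_le_one (by norm_num) (by norm_num) (by omega)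
      _ = 1/4 := by norm_num
  linarith

/-- The index type of monomials of degree at most `m` in `m` variables. -/
abbrev Mono (m : ℕ) : Type := (j : Fin (m+1)) × Sym (Fin m) j

theorem card_mono (m : ℕ) : Fintype.card (Mono m) ≤ 4^m := by
  have h1 : Fintype.card (Mono m) = ∑ j ∈ range (m+1), Nat.multichoose m j := by
    rw [Fintype.card_sigma, ← Fin.sum_univ_eq_sum_range]
    exact Finset.sum_congr rfl fun j _ => Sym.card_sym_fin_eq_multichoose m j
  rw [h1, sum_multichoose, Nat.multichoose_eq]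
  calc (m + 1 + m - 1).choose m ≤ 2^(m+1+m-1) := Nat.choose_le_two_pow _ _
    _ = 4^m := by
      rw [show m + 1 + m - 1 = 2 * m by omega, pow_mul]
      norm_num

/-- The evaluation of a monomial. -/
noncomputable def monoEval {m : ℕ} (p : Mono m) (x : Fin m → ℝ) : ℝ := (p.2.val.map x).prod

/-- Expanding the truncated exponential kernel into monomials: if all monomial moments of `v`
vanish, then the truncated kernel kills `v`. -/
theorem kernel_zero {m : ℕ} {G : Type*} [Fintype G] (x : Fin m → ℝ) (y : G → Fin m → ℝ)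
    (v : G → ℂ) (hv : ∀ p : Mono m, ∑ b, (monoEval p (y b) : ℂ) * v b = 0) :
    ∑ b, (∑ j ∈ range (m+1), (2 * Real.pi * Complex.I * ((∑ i, x i * y b i : ℝ) : ℂ) / 6)^j
      / (j.factorial : ℂ)) * v b = 0 := by
  classical
  have h1 : ∀ j ∈ range (m+1), ∑ b, (((∑ i, x i * y b i : ℝ) : ℂ))^j * v b = 0 := by
    intro j hj
    have h2 : ∀ b, (((∑ i, x i * y b i : ℝ) : ℂ))^j
        = ∑ k ∈ (univ : Finset (Fin m)).sym j, ((k.val.countPerms : ℂ) *
            ((k.val.map x).prod : ℝ)) * (((k.val.map (y b)).prod : ℝ) : ℂ) := by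
      intro b
      rw [← Complex.ofReal_pow, Finset.sum_pow (s := univ) (fun i => x i * y b i) j]
      push_cast
      refine Finset.sum_congr rfl fun k _ => ?_
      rw [Multiset.prod_map_mul]
      push_cast
      ring
    simp_rw [h2, Finset.sum_mul]
    rw [Finset.sum_comm]
    refine Finset.sum_eq_zero fun k _ => ?_
    have h3 := hv ⟨⟨j, Finset.mem_range.mp hj⟩, k⟩
    simp only [monoEval] at h3
    simp_rw [mul_assoc]
    rw [← Finset.mul_sum, ← Finset.mul_sum, h3]
    simp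
  simp_rw [Finset.sum_mul]
  rw [Finset.sum_comm]
  refine Finset.sum_eq_zero fun j hj => ?_
  have h4 := h1 j hj
  calc ∑ b, (2 * Real.pi * Complex.I * ((∑ i, x i * y b i : ℝ) : ℂ) / 6)^j
      / (j.factorial : ℂ) * v b
      = ((2 * Real.pi * Complex.I / 6)^j / (j.factorial : ℂ)) *
        ∑ b, (((∑ i, x i * y b i : ℝ) : ℂ))^j * v b := by
        rw [Finset.mul_sum]
        refine Finset.sum_congr rfl fun b _ => ?_
        rw [show (2 * Real.pi * Complex.I * ((∑ i, x i * y b i : ℝ) : ℂ) / 6)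
          = (2 * Real.pi * Complex.I / 6) * ((∑ i, x i * y b i : ℝ) : ℂ) by ring, mul_pow]
        ring
    _ = 0 := by rw [h4, mul_zero]

/-- Key inequality: representatives for the pairing of `(ℤ/6)^m` with itself cannot all have small
inner products. -/
theorem exists_large_pairing (m : ℕ) (hm : 1 ≤ m) (x y : (Fin m → ZMod 6) → Fin m → ℝ)
    (h : ∀ a b, ∃ k : ℤ, ∑ i, x a i * y b i = (k : ℝ) ∧ (k : ZMod 6) = ∑ i, a i * b i) :
    ∃ a b, ((m:ℝ)+1)/8 < |∑ i, x a i * y b i| := by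
  classical
  by_contra hcon
  push Not at hcon
  let G := Fin m → ZMod 6
  have hcardG : Fintype.card G = 6^m := by simp [G]
  let V := EuclideanSpace ℂ G
  let L : V →ₗ[ℂ] (Mono m → ℂ) :=
    { toFun := fun v p => ∑ b, (monoEval p (y b) : ℂ) * v b
      map_add' := by
        intro v w; ext p
        have h0 : ∀ b, (v + w) b = v b + w b := fun b => rfl
        simp only [h0, Pi.add_apply, mul_add, Finset.sum_add_distrib]
      map_smul' := by
        intro c v; ext p
        have h0 : ∀ b, (c • v) b = c * v b := fun b => rfl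
        simp only [h0, smul_eq_mul, RingHom.id_apply, Pi.smul_apply, Finset.mul_sum]
        exact Finset.sum_congr rfl fun b _ => by ring }
  let K := LinearMap.ker L
  have hrank : 6^m ≤ Module.finrank ℂ K + 4^m := by
    have h1 := L.finrank_range_add_finrank_ker
    have h2 : Module.finrank ℂ (LinearMap.range L) ≤ 4^m := by
      refine (Submodule.finrank_le _).trans ?_
      rw [Module.finrank_fintype_fun_eq_card]
      exact card_mono m
    have h3 : Module.finrank ℂ V = 6^m := by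
      simp only [V]
      rw [finrank_euclideanSpace, hcardG]
    rw [h3] at h1
    change _ + Module.finrank ℂ K = _ at h1
    omega
  let B := stdOrthonormalBasis ℂ K
  -- the error matrix
  let E : G → V := fun a => WithLp.toLp 2 (fun b => (starRingEnd ℂ)
    ((ZMod.stdAddChar (∑ i, a i * b i) : ℂ) -
      ∑ j ∈ range (m+1), (2 * Real.pi * Complex.I * ((∑ i, x a i * y b i : ℝ) : ℂ) / 6)^j
      / (j.factorial : ℂ)))
  have hEnorm : ∀ a, ‖E a‖^2 ≤ (6:ℝ)^m / 4 := by
    intro a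
    rw [EuclideanSpace.norm_sq_eq]
    have : ∀ b : G, ‖E a b‖^2 ≤ 1/4 := by
      intro b
      obtain ⟨k, hk1, hk2⟩ := h a b
      have hF : (ZMod.stdAddChar (∑ i, a i * b i) : ℂ)
          = Complex.exp (2 * Real.pi * Complex.I * ((∑ i, x a i * y b i : ℝ) : ℂ) / 6) := by
        rw [← hk2, ZMod.stdAddChar_coe, hk1]
        push_cast
        rfl
      have hn : ‖E a b‖ ≤ 1/2 := by
        simp only [E]
        rw [RCLike.norm_conj, hF]
        exact taylor_bound m hm _ (hcon a b)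
      calc ‖E a b‖^2 ≤ (1/2)^2 := pow_le_pow_left₀ (norm_nonneg _) hn 2
        _ = 1/4 := by norm_num
    calc ∑ b, ‖E a b‖^2 ≤ ∑ b : G, (1/4 : ℝ) := Finset.sum_le_sum fun b _ => this b
      _ = (6:ℝ)^m / 4 := by
        rw [Finset.sum_const, Finset.card_univ, hcardG]
        simp; ring
  have hEinner : ∀ (a : G) (v : K), inner ℂ (E a) (v : V)
      = ∑ b, (ZMod.stdAddChar (∑ i, a i * b i) : ℂ) * (v : V) b := by
    intro a v
    rw [PiLp.inner_apply]
    have hk := kernel_zero (x a) y (fun b => (v : V) b) (fun p => by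
      have := v.2
      rw [LinearMap.mem_ker] at this
      exact congrFun this p)
    have : ∀ b, inner ℂ (E a b) ((v : V) b) = (ZMod.stdAddChar (∑ i, a i * b i) : ℂ) * (v : V) b
        - (∑ j ∈ range (m+1), (2 * Real.pi * Complex.I * ((∑ i, x a i * y b i : ℝ) : ℂ) / 6)^j
          / (j.factorial : ℂ)) * (v : V) b := by
      intro b
      simp only [E, RCLike.inner_apply, RingHomCompTriple.comp_apply, RingHom.id_apply]
      ring
    rw [Finset.sum_congr rfl fun b _ => this b, Finset.sum_sub_distrib, hk, sub_zero]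
  -- Bessel
  have hbessel : ∀ a, ∑ i, ‖inner ℂ (E a) ((B i : K) : V)‖^2 ≤ (6:ℝ)^m/4 := by
    intro a
    have hon : Orthonormal ℂ (fun i => ((B i : K) : V)) := by
      exact B.orthonormal.comp_linearIsometry K.subtypeₗᵢ
    have := hon.sum_inner_products_le (s := univ) (E a)
    refine le_trans ?_ (this.trans (hEnorm a))
    refine Finset.sum_le_sum fun i _ => ?_
    rw [norm_inner_symm]
  have hsum : ∑ a : G, ∑ i, ‖inner ℂ (E a) ((B i : K) : V)‖^2 ≤ (6:ℝ)^m * ((6:ℝ)^m/4) := by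
    calc ∑ a : G, ∑ i, ‖inner ℂ (E a) ((B i : K) : V)‖^2 ≤ ∑ a : G, ((6:ℝ)^m/4) :=
          Finset.sum_le_sum fun a _ => hbessel a
      _ = (6:ℝ)^m * ((6:ℝ)^m/4) := by
        rw [Finset.sum_const, Finset.card_univ, hcardG]
        simp
  rw [Finset.sum_comm] at hsum
  have hinner : ∀ i, ∑ a : G, ‖inner ℂ (E a) ((B i : K) : V)‖^2 = (6:ℝ)^m := by
    intro i
    simp_rw [hEinner]
    rw [parseval]
    have h1 : ‖((B i : K) : V)‖ = 1 := by
      exact B.orthonormal.1 i
    rw [EuclideanSpace.norm_eq, Real.sqrt_eq_one] at h1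
    rw [h1, mul_one]
  rw [Finset.sum_congr rfl fun i _ => hinner i, Finset.sum_const, Finset.card_univ,
    Fintype.card_fin, nsmul_eq_mul] at hsum
  have h6 : (0:ℝ) < 6^m := by positivity
  have hk : (Module.finrank ℂ K : ℝ) ≤ 6^m/4 := by
    rw [mul_comm] at hsum
    exact le_of_mul_le_mul_left hsum h6
  have hr : (6:ℝ)^m ≤ (Module.finrank ℂ K : ℝ) + 4^m := by exact_mod_cast hrank
  have h46 : (4:ℝ)^m * 3 ≤ 6^m * 2 := by
    obtain ⟨n, rfl⟩ : ∃ n, m = n + 1 := ⟨m-1, by omega⟩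
    have : (4:ℝ)^n ≤ 6^n := pow_le_pow_left₀ (by norm_num) (by norm_num) n
    rw [pow_succ, pow_succ]
    nlinarith
  have h4 : (0:ℝ) < 4^m := by positivity
  nlinarith

end Pool.Agent.H31
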