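import Mathlib
import Pool.Agent.H31.CharMatrix

set_option autoImplicit false

open Finset

namespace Pool.Agent.H31

section Exposed

variable {E : Type*} [NormedAddCommGroup E] [InnerProductSpace ℝ E]

/-- `q` is the unique maximizer over `K` of the functional `⟨·, g⟩`. -/
def Expo (K : Set E) (q g : E) : Prop :=
  q ∈ K ∧ ∀ k ∈ K, k ≠ q → inner ℝ k g < inner ℝ q g

theorem exists_expo {K : Set E} (hK : IsCompact K) (hne : K.Nonempty) (z : E) {ε : ℝ}
    (hε : 0 < ε) : ∃ q g, Expo K q g ∧ ∀ k ∈ K, inner ℝ k z ≤ inner ℝ q z + ε := by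
  obtain ⟨R, hR0, hR⟩ := hK.isBounded.exists_pos_norm_le
  set t : ℝ := (R^2 + 1)/ε with ht
  have ht0 : 0 < t := by positivity
  obtain ⟨q, hqK, hq⟩ := hK.exists_isMaxOn hne
    (f := fun k : E => ‖k + t • z‖^2) (by fun_prop)
  have hmax : ∀ k ∈ K, ‖k + t • z‖^2 ≤ ‖q + t • z‖^2 := fun k hk => hq hk
  refine ⟨q, q + t • z, ⟨hqK, ?_⟩, ?_⟩
  · intro k hk hkq
    have h1 := hmax k hk
    have h2 : k + t • z = (q + t • z) - (q - k) := by abel
    rw [h2, norm_sub_sq_real (q + t • z) (q - k)] at h1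
    have h3 : 0 < ‖q - k‖^2 := by
      have : 0 < ‖q - k‖ := norm_pos_iff.mpr (sub_ne_zero.mpr (Ne.symm hkq))
      positivity
    have h4 : inner ℝ (q + t • z) (q - k) = inner ℝ q (q + t • z) - inner ℝ k (q + t • z) := by
      rw [inner_sub_right, real_inner_comm, real_inner_comm k]
    rw [h4] at h1
    linarith
  · intro k hk
    have h1 := hmax k hk
    rw [norm_add_sq_real, norm_add_sq_real, real_inner_smul_right, real_inner_smul_right] at h1
    have h2 : ‖q‖^2 ≤ R^2 := pow_le_pow_left₀ (norm_nonneg _) (hR q hqK) 2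
    have h3 : 0 ≤ ‖k‖^2 := by positivity
    have h4 : t * inner ℝ k z ≤ t * (inner ℝ q z + ε) := by
      have : t * ε = R^2 + 1 := by rw [ht]; field_simp
      nlinarith
    exact le_of_mul_le_mul_left h4 ht0

end Exposed

/-- Near minimal elements exist. -/
theorem exists_near_min {E : Type*} [NormedAddCommGroup E] (S : Set E) (hS : S.Nonempty) {δ : ℝ}
    (hδ : 0 < δ) : ∃ x ∈ S, ∀ x' ∈ S, ‖x‖^2 ≤ ‖x'‖^2 + δ := by
  have hne : ((fun x : E => ‖x‖^2) '' S).Nonempty := hS.image _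
  have hbdd : BddBelow ((fun x : E => ‖x‖^2) '' S) := by
    refine ⟨0, ?_⟩
    rintro _ ⟨x, _, rfl⟩
    positivity
  obtain ⟨r, ⟨x, hx, rfl⟩, hr⟩ := exists_lt_of_csInf_lt hne
    (lt_add_of_pos_right (sInf ((fun x : E => ‖x‖^2) '' S)) hδ)
  refine ⟨x, hx, fun x' hx' => ?_⟩
  have := csInf_le hbdd (Set.mem_image_of_mem (fun x : E => ‖x‖^2) hx')
  simp only at this hr
  linarith

section Main

variable {m : ℕ} {X : Type*} [NormedAddCommGroup X] [NormedSpace ℝ X] [FiniteDimensional ℝ X]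

/-- The numerical index one condition gives an attained version. -/
theorem attained
    (hH : ∀ T : X →L[ℝ] X, ∀ r : ℝ, r < ‖T‖ →
      ∃ u : X, ∃ f : X →L[ℝ] ℝ, ‖u‖ = 1 ∧ ‖f‖ = 1 ∧ f u = 1 ∧ r < |f (T u)|)
    (S : X →L[ℝ] X) :
    ∃ u : X, ∃ f : X →L[ℝ] ℝ, ‖u‖ = 1 ∧ ‖f‖ = 1 ∧ f u = 1 ∧ ‖S‖ ≤ |f (S u)| := by
  have : ProperSpace X := FiniteDimensional.proper ℝ X
  have : FiniteDimensional ℝ (X →L[ℝ] ℝ) := inferInstance
  have : ProperSpace (X →L[ℝ] ℝ) := FiniteDimensional.proper ℝ _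
  let P : Set (X × (X →L[ℝ] ℝ)) :=
    (Metric.sphere 0 1 ×ˢ Metric.sphere 0 1) ∩ {p | p.2 p.1 = 1}
  have hP : IsCompact P := by
    apply IsCompact.inter_right
    · exact (isCompact_sphere _ _).prod (isCompact_sphere _ _)
    · apply isClosed_eq
      · exact continuous_snd.clm_apply continuous_fst
      · exact continuous_const
  obtain ⟨u0, f0, hu0, hf0, hfu0, -⟩ := hH S (‖S‖ - 1) (by linarith)
  have hne : P.Nonempty := ⟨(u0, f0), by simp [P, hu0, hf0, hfu0]⟩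
  obtain ⟨⟨u, f⟩, hmem, hmax⟩ := hP.exists_isMaxOn hne (f := fun p => |p.2 (S p.1)|)
    ((continuous_snd.clm_apply (S.continuous.comp continuous_fst)).abs.continuousOn)
  simp only [P, Set.mem_inter_iff, Set.mem_prod, mem_sphere_iff_norm, sub_zero,
    Set.mem_ofPred_eq] at hmem
  refine ⟨u, f, hmem.1.1, hmem.1.2, hmem.2, ?_⟩
  by_contra hcon
  push Not at hcon
  obtain ⟨u1, f1, hu1, hf1, hfu1, hlt⟩ := hH S _ hcon
  have : |f1 (S u1)| ≤ |f (S u)| := hmax (a := (u1, f1)) (by simp [P, hu1, hf1, hfu1])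
  linarith

/-- The functional on `X` represented by a vector of the Euclidean space. -/
noncomputable def psi (T : X ≃L[ℝ] EuclideanSpace ℝ (Fin m)) (y : EuclideanSpace ℝ (Fin m)) :
    X →L[ℝ] ℝ :=
  (innerSL ℝ y).comp (T : X →L[ℝ] EuclideanSpace ℝ (Fin m))

theorem psi_apply (T : X ≃L[ℝ] EuclideanSpace ℝ (Fin m)) (y : EuclideanSpace ℝ (Fin m)) (x : X) :
    psi T y x = inner ℝ y (T x) := rfl

theorem psi_surj (T : X ≃L[ℝ] EuclideanSpace ℝ (Fin m)) (f : X →L[ℝ] ℝ) :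
    ∃ y, psi T y = f := by
  refine ⟨(InnerProductSpace.toDual ℝ _).symm
    (f.comp (T.symm : EuclideanSpace ℝ (Fin m) →L[ℝ] X)), ?_⟩
  ext x
  rw [psi_apply, InnerProductSpace.toDual_symm_apply]
  simp

/-- The image of the unit ball. -/
def KK (T : X ≃L[ℝ] EuclideanSpace ℝ (Fin m)) : Set (EuclideanSpace ℝ (Fin m)) :=
  T '' Metric.closedBall 0 1

/-- The polar of the image of the unit ball. -/
def KO (T : X ≃L[ℝ] EuclideanSpace ℝ (Fin m)) : Set (EuclideanSpace ℝ (Fin m)) :=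
  {y | ‖psi T y‖ ≤ 1}

theorem KK_compact (T : X ≃L[ℝ] EuclideanSpace ℝ (Fin m)) : IsCompact (KK T) := by
  have : ProperSpace X := FiniteDimensional.proper ℝ X
  exact (isCompact_closedBall _ _).image T.continuous

theorem norm_le_psi (T : X ≃L[ℝ] EuclideanSpace ℝ (Fin m)) (y : EuclideanSpace ℝ (Fin m)) :
    ‖y‖ ≤ ‖(T.symm : EuclideanSpace ℝ (Fin m) →L[ℝ] X)‖ * ‖psi T y‖ := by
  by_cases hy : y = 0
  · subst hy; simp; positivity
  have hy0 : 0 < ‖y‖ := norm_pos_iff.mpr hy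
  have h1 : ‖y‖^2 = psi T y (T.symm y) := by
    rw [psi_apply]; simp
  have h2 : psi T y (T.symm y) ≤ ‖psi T y‖ * ‖T.symm y‖ :=
    (le_abs_self _).trans ((psi T y).le_opNorm _)
  have h3 : ‖T.symm y‖ ≤ ‖(T.symm : EuclideanSpace ℝ (Fin m) →L[ℝ] X)‖ * ‖y‖ :=
    (T.symm : EuclideanSpace ℝ (Fin m) →L[ℝ] X).le_opNorm y
  have h4 : ‖y‖ * ‖y‖ ≤ (‖(T.symm : EuclideanSpace ℝ (Fin m) →L[ℝ] X)‖ * ‖psi T y‖) * ‖y‖ := by
    have h5 : ‖psi T y‖ * ‖T.symm y‖ ≤ ‖psi T y‖ *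
        (‖(T.symm : EuclideanSpace ℝ (Fin m) →L[ℝ] X)‖ * ‖y‖) :=
      mul_le_mul_of_nonneg_left h3 (norm_nonneg _)
    nlinarith
  exact le_of_mul_le_mul_right h4 hy0

theorem psi_continuous (T : X ≃L[ℝ] EuclideanSpace ℝ (Fin m)) : Continuous (psi T) := by
  unfold psi
  exact (ContinuousLinearMap.compL ℝ X (EuclideanSpace ℝ (Fin m)) ℝ).flip
    (T : X →L[ℝ] EuclideanSpace ℝ (Fin m)) |>.continuous.comp (innerSL ℝ).continuous

theorem KO_compact (T : X ≃L[ℝ] EuclideanSpace ℝ (Fin m)) : IsCompact (KO T) := by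
  apply Metric.isCompact_of_isClosed_isBounded
  · exact isClosed_le (psi_continuous T).norm continuous_const
  · rw [isBounded_iff_forall_norm_le]
    refine ⟨‖(T.symm : EuclideanSpace ℝ (Fin m) →L[ℝ] X)‖, fun y hy => ?_⟩
    have h1 := norm_le_psi T y
    have h2 : ‖psi T y‖ ≤ 1 := hy
    have h3 : 0 ≤ ‖(T.symm : EuclideanSpace ℝ (Fin m) →L[ℝ] X)‖ := norm_nonneg _
    nlinarith

theorem KO_norm_le (T : X ≃L[ℝ] EuclideanSpace ℝ (Fin m)) {y : EuclideanSpace ℝ (Fin m)}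
    (hy : y ∈ KO T) : ‖y‖ ≤ ‖(T.symm : EuclideanSpace ℝ (Fin m) →L[ℝ] X)‖ := by
  have h1 := norm_le_psi T y
  have h2 : ‖psi T y‖ ≤ 1 := hy
  have h3 : 0 ≤ ‖(T.symm : EuclideanSpace ℝ (Fin m) →L[ℝ] X)‖ := norm_nonneg _
  nlinarith

theorem KK_norm_le (T : X ≃L[ℝ] EuclideanSpace ℝ (Fin m)) {u : EuclideanSpace ℝ (Fin m)}
    (hu : u ∈ KK T) : ‖u‖ ≤ ‖(T : X →L[ℝ] EuclideanSpace ℝ (Fin m))‖ := by
  obtain ⟨x, hx, rfl⟩ := hu
  have hx1 : ‖x‖ ≤ 1 := by simpa using hx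
  have h1 : ‖T x‖ ≤ ‖(T : X →L[ℝ] EuclideanSpace ℝ (Fin m))‖ * ‖x‖ :=
    (T : X →L[ℝ] EuclideanSpace ℝ (Fin m)).le_opNorm x
  have h3 : 0 ≤ ‖(T : X →L[ℝ] EuclideanSpace ℝ (Fin m))‖ := norm_nonneg _
  nlinarith

theorem KK_zero (T : X ≃L[ℝ] EuclideanSpace ℝ (Fin m)) : (0 : EuclideanSpace ℝ (Fin m)) ∈ KK T :=
  ⟨0, by simp, by simp⟩

theorem KO_zero (T : X ≃L[ℝ] EuclideanSpace ℝ (Fin m)) : (0 : EuclideanSpace ℝ (Fin m)) ∈ KO T := by
  simp [KO, psi]

/-- norming by exposed points of `KK` -/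
theorem norming_KK (T : X ≃L[ℝ] EuclideanSpace ℝ (Fin m)) (z : EuclideanSpace ℝ (Fin m)) {C : ℝ}
    (hC0 : 0 ≤ C) (hC : ∀ u g, Expo (KK T) u g → inner ℝ u z ≤ C) : ‖psi T z‖ ≤ C := by
  have h1 : ∀ x : X, ‖x‖ ≤ 1 → inner ℝ (T x) z ≤ C := by
    intro x hx
    apply le_of_forall_pos_le_add
    intro ε hε
    obtain ⟨q, g, hq, hq2⟩ := exists_expo (KK_compact T) ⟨0, KK_zero T⟩ z hε
    have := hq2 (T x) ⟨x, by simpa using hx, rfl⟩
    linarith [hC q g hq]
  apply ContinuousLinearMap.opNorm_le_of_unit_norm hC0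
  intro x hx
  rw [psi_apply, Real.norm_eq_abs, abs_le]
  constructor
  · have := h1 (-x) (by rw [norm_neg, hx])
    rw [map_neg, inner_neg_left, real_inner_comm] at this
    linarith
  · rw [real_inner_comm]
    exact h1 x hx.le

/-- norming by exposed points of `KO` -/
theorem norming_KO (T : X ≃L[ℝ] EuclideanSpace ℝ (Fin m)) (z : EuclideanSpace ℝ (Fin m)) {C : ℝ}
    (hC : ∀ y h, Expo (KO T) y h → inner ℝ y z ≤ C) : ‖T.symm z‖ ≤ C := by
  apply le_of_forall_pos_le_add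
  intro ε hε
  obtain ⟨q, g, hq, hq2⟩ := exists_expo (KO_compact T) ⟨0, KO_zero T⟩ z hε
  obtain ⟨f, hf1, hf2⟩ := exists_dual_vector'' ℝ (T.symm z)
  obtain ⟨y, rfl⟩ := psi_surj T f
  have h1 := hq2 y hf1
  have h2 : inner ℝ y z = ‖T.symm z‖ := by
    rw [psi_apply] at hf2
    simpa using hf2
  linarith [hC q g hq]

/-- exposing vectors are nonzero if the set has two points -/
theorem expo_ne_zero {E : Type*} [NormedAddCommGroup E] [InnerProductSpace ℝ E] {K : Set E}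
    (h0 : (0 : E) ∈ K) (h1 : ∃ k ∈ K, k ≠ 0) {q g : E} (h : Expo K q g) : g ≠ 0 := by
  rintro rfl
  obtain ⟨k, hk, hk0⟩ := h1
  by_cases hq : q = 0
  · have := h.2 k hk (by rw [hq]; exact hk0)
    simp at this
  · have := h.2 0 h0 (Ne.symm hq)
    simp at this

theorem KK_nontrivial (hm : 1 ≤ m) (T : X ≃L[ℝ] EuclideanSpace ℝ (Fin m)) :
    ∃ k ∈ KK T, k ≠ 0 := by
  let e : EuclideanSpace ℝ (Fin m) := EuclideanSpace.single ⟨0, hm⟩ 1
  have he : e ≠ 0 := by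
    intro h
    have := congrArg (fun v : EuclideanSpace ℝ (Fin m) => v ⟨0, hm⟩) h
    simp [e] at this
  have hx : T.symm e ≠ 0 := by simpa using he
  have hx0 : 0 < ‖T.symm e‖ := norm_pos_iff.mpr hx
  refine ⟨T ((‖T.symm e‖)⁻¹ • T.symm e), ⟨_, ?_, rfl⟩, ?_⟩
  · simp only [Metric.mem_closedBall, dist_zero_right, norm_smul, norm_inv, norm_norm]
    rw [inv_mul_cancel₀ hx0.ne']
  · simp only [map_smul, ContinuousLinearEquiv.apply_symm_apply]
    exact smul_ne_zero (inv_ne_zero hx0.ne') he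

theorem KO_nontrivial (hm : 1 ≤ m) (T : X ≃L[ℝ] EuclideanSpace ℝ (Fin m)) :
    ∃ k ∈ KO T, k ≠ 0 := by
  let e : EuclideanSpace ℝ (Fin m) := EuclideanSpace.single ⟨0, hm⟩ 1
  have he : e ≠ 0 := by
    intro h
    have := congrArg (fun v : EuclideanSpace ℝ (Fin m) => v ⟨0, hm⟩) h
    simp [e] at this
  have hx : 0 < ‖psi T e‖ := by
    have h1 := norm_le_psi T e
    have h2 : 0 < ‖e‖ := norm_pos_iff.mpr he
    by_contra hcon
    have h3 : ‖psi T e‖ = 0 := le_antisymm (not_lt.mp hcon) (norm_nonneg _)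
    rw [h3, mul_zero] at h1
    linarith
  refine ⟨(‖psi T e‖)⁻¹ • e, ?_, smul_ne_zero (inv_ne_zero hx.ne') he⟩
  have h1 : psi T ((‖psi T e‖)⁻¹ • e) = (‖psi T e‖)⁻¹ • psi T e := by
    unfold psi
    rw [map_smul, ContinuousLinearMap.smul_comp]
  change ‖psi T ((‖psi T e‖)⁻¹ • e)‖ ≤ 1
  rw [h1, norm_smul, norm_inv, norm_norm, inv_mul_cancel₀ hx.ne']

theorem pairing (hm : 1 ≤ m)
    (hH : ∀ T : X →L[ℝ] X, ∀ r : ℝ, r < ‖T‖ →
      ∃ u : X, ∃ f : X →L[ℝ] ℝ, ‖u‖ = 1 ∧ ‖f‖ = 1 ∧ f u = 1 ∧ r < |f (T u)|)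
    (T : X ≃L[ℝ] EuclideanSpace ℝ (Fin m)) {u g y h : EuclideanSpace ℝ (Fin m)}
    (hu : Expo (KK T) u g) (hy : Expo (KO T) y h) : |inner ℝ y u| = 1 := by
  have hg0 : g ≠ 0 := expo_ne_zero (KK_zero T) (KK_nontrivial hm T) hu
  have hh0 : h ≠ 0 := expo_ne_zero (KO_zero T) (KO_nontrivial hm T) hy
  have hpg : 0 < ‖psi T g‖ := by
    have h1 := norm_le_psi T g
    have h2 : 0 < ‖g‖ := norm_pos_iff.mpr hg0
    by_contra hcon
    have h3 : ‖psi T g‖ = 0 := le_antisymm (not_lt.mp hcon) (norm_nonneg _)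
    rw [h3, mul_zero] at h1
    linarith
  have heta : 0 < ‖T.symm h‖ := norm_pos_iff.mpr (by simpa using hh0)
  obtain ⟨v, f, hv, hf, hfv, hS⟩ := attained hH ((psi T g).smulRight (T.symm h))
  rw [ContinuousLinearMap.norm_smulRight_apply, ContinuousLinearMap.smulRight_apply, map_smul,
    smul_eq_mul, abs_mul] at hS
  have hb1 : |psi T g v| ≤ ‖psi T g‖ := by
    have := (psi T g).le_opNorm v
    rwa [hv, mul_one] at this
  have hb2 : |f (T.symm h)| ≤ ‖T.symm h‖ := by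
    have := f.le_opNorm (T.symm h)
    rwa [hf, one_mul] at this
  have hc1 : ‖psi T g‖ ≤ |psi T g v| := by
    have h3 : ‖psi T g‖ * ‖T.symm h‖ ≤ |psi T g v| * ‖T.symm h‖ :=
      hS.trans (mul_le_mul_of_nonneg_left hb2 (abs_nonneg _))
    exact le_of_mul_le_mul_right h3 heta
  have hc2 : ‖T.symm h‖ ≤ |f (T.symm h)| := by
    have h3 : ‖psi T g‖ * ‖T.symm h‖ ≤ ‖psi T g‖ * |f (T.symm h)| :=
      hS.trans (mul_le_mul_of_nonneg_right hb1 (abs_nonneg _))
    exact le_of_mul_le_mul_left h3 hpg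
  -- the sign for u
  obtain ⟨σ, hσ, hσu⟩ : ∃ σ : ℝ, |σ| = 1 ∧ T (σ • v) = u := by
    obtain ⟨σ, hσ, hσ2⟩ : ∃ σ : ℝ, |σ| = 1 ∧ σ * psi T g v = |psi T g v| := by
      rcases le_total 0 (psi T g v) with hs | hs
      · exact ⟨1, by simp, by rw [abs_of_nonneg hs, one_mul]⟩
      · exact ⟨-1, by simp, by rw [abs_of_nonpos hs]; ring⟩
    refine ⟨σ, hσ, ?_⟩
    by_contra hne
    have hmem : T (σ • v) ∈ KK T := ⟨σ • v, by simp [norm_smul, hσ, hv], rfl⟩
    have h1 := hu.2 _ hmem hne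
    have h2 : inner ℝ (T (σ • v)) g = |psi T g v| := by
      rw [map_smul, real_inner_smul_left, real_inner_comm, ← psi_apply, hσ2]
    have h3 : inner ℝ u g ≤ ‖psi T g‖ := by
      obtain ⟨ξ, hξ, rfl⟩ := hu.1
      have hξ1 : ‖ξ‖ ≤ 1 := by simpa using hξ
      rw [real_inner_comm, ← psi_apply]
      calc psi T g ξ ≤ ‖psi T g‖ * ‖ξ‖ := (le_abs_self _).trans ((psi T g).le_opNorm _)
        _ ≤ ‖psi T g‖ * 1 := mul_le_mul_of_nonneg_left hξ1 (norm_nonneg _)
        _ = ‖psi T g‖ := mul_one _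
    linarith
  obtain ⟨y', rfl⟩ := psi_surj T f
  obtain ⟨τ, hτ, hτy⟩ : ∃ τ : ℝ, |τ| = 1 ∧ τ • y' = y := by
    obtain ⟨τ, hτ, hτ2⟩ : ∃ τ : ℝ, |τ| = 1 ∧ τ * psi T y' (T.symm h) = |psi T y' (T.symm h)| := by
      rcases le_total 0 (psi T y' (T.symm h)) with hs | hs
      · exact ⟨1, by simp, by rw [abs_of_nonneg hs, one_mul]⟩
      · exact ⟨-1, by simp, by rw [abs_of_nonpos hs]; ring⟩
    refine ⟨τ, hτ, ?_⟩
    by_contra hne
    have hps : psi T (τ • y') = τ • psi T y' := by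
      unfold psi
      rw [map_smul, ContinuousLinearMap.smul_comp]
    have hmem : τ • y' ∈ KO T := by
      change ‖psi T (τ • y')‖ ≤ 1
      rw [hps, norm_smul, Real.norm_eq_abs, hτ, hf, mul_one]
    have h1 := hy.2 _ hmem hne
    have h2 : inner ℝ (τ • y') h = |psi T y' (T.symm h)| := by
      rw [real_inner_smul_left, ← hτ2, psi_apply]
      simp
    have h3 : inner ℝ y h ≤ ‖T.symm h‖ := by
      have h4 : inner ℝ y h = psi T y (T.symm h) := by rw [psi_apply]; simp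
      have h5 : ‖psi T y‖ ≤ 1 := hy.1
      rw [h4]
      calc psi T y (T.symm h) ≤ ‖psi T y‖ * ‖T.symm h‖ :=
            (le_abs_self _).trans ((psi T y).le_opNorm _)
        _ ≤ 1 * ‖T.symm h‖ := mul_le_mul_of_nonneg_right h5 (norm_nonneg _)
        _ = ‖T.symm h‖ := one_mul _
    linarith
  rw [← hτy, ← hσu, map_smul, real_inner_smul_left, real_inner_smul_right, ← psi_apply, hfv,
    abs_mul, abs_mul, hτ, hσ]
  simp

/-- A subgroup of the Euclidean space whose elements have integer inner products with a bounded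
spanning set is discrete. -/
theorem discrete_of_int {E : Type*} [NormedAddCommGroup E] [InnerProductSpace ℝ E]
    (L : Submodule ℤ E) (Phi : Set E) {B : ℝ} (hB : ∀ y ∈ Phi, ‖y‖ ≤ B)
    (hspan : ∀ z : E, (∀ y ∈ Phi, inner ℝ y z = 0) → z = 0)
    (hint : ∀ x ∈ L, ∀ y ∈ Phi, ∃ k : ℤ, inner ℝ y x = (k : ℝ)) : DiscreteTopology L := by
  apply discreteTopology_of_isOpen_singleton_zero
  have h1 : ({0} : Set L) = (fun x : L => (x : E)) ⁻¹' Metric.ball 0 (1/(|B|+1)) := by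
    ext x
    simp only [Set.mem_singleton_iff, Set.mem_preimage, Metric.mem_ball, dist_zero_right]
    constructor
    · rintro rfl
      simp; positivity
    · intro hx
      have hx' : ‖(x:E)‖ < 1/(|B|+1) := hx
      have : (x : E) = 0 := by
        apply hspan
        intro y hy
        obtain ⟨k, hk⟩ := hint x x.2 y hy
        have h2 : |inner ℝ y (x:E)| < 1 := by
          calc |inner ℝ y (x:E)| ≤ ‖y‖ * ‖(x:E)‖ := abs_real_inner_le_norm _ _
            _ ≤ (|B|+1) * ‖(x:E)‖ := by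
                apply mul_le_mul_of_nonneg_right _ (norm_nonneg _)
                have := hB y hy
                have := le_abs_self B
                linarith
            _ < (|B|+1) * (1/(|B|+1)) := by
                apply mul_lt_mul_of_pos_left hx'
                positivity
            _ = 1 := by field_simp
        rw [hk] at h2 ⊢
        have h3 : |k| < 1 := by exact_mod_cast h2
        rw [Int.abs_lt_one_iff] at h3
        rw [h3]; simp
      exact Subtype.ext this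
  rw [h1]
  exact Metric.isOpen_ball.preimage continuous_subtype_val

theorem main_bound (hm : 1 ≤ m)
    (hH : ∀ T : X →L[ℝ] X, ∀ r : ℝ, r < ‖T‖ →
      ∃ u : X, ∃ f : X →L[ℝ] ℝ, ‖u‖ = 1 ∧ ‖f‖ = 1 ∧ f u = 1 ∧ r < |f (T u)|)
    (T : X ≃L[ℝ] EuclideanSpace ℝ (Fin m)) :
    Real.sqrt m ≤ 17 * (‖(T : X →L[ℝ] EuclideanSpace ℝ (Fin m))‖ *
      ‖(T.symm : EuclideanSpace ℝ (Fin m) →L[ℝ] X)‖) := by
  classical
  set A : ℝ := ‖(T : X →L[ℝ] EuclideanSpace ℝ (Fin m))‖ with hA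
  set B : ℝ := ‖(T.symm : EuclideanSpace ℝ (Fin m) →L[ℝ] X)‖ with hB
  let E := EuclideanSpace ℝ (Fin m)
  have hApos : 0 < A := by
    obtain ⟨k, hk, hk0⟩ := KK_nontrivial hm T
    exact (norm_pos_iff.mpr hk0).trans_le (KK_norm_le T hk)
  have hBpos : 0 < B := by
    obtain ⟨k, hk, hk0⟩ := KO_nontrivial hm T
    exact (norm_pos_iff.mpr hk0).trans_le (KO_norm_le T hk)
  let U : Set E := {u | ∃ g, Expo (KK T) u g}
  let Phi : Set E := {y | ∃ h, Expo (KO T) y h}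
  have hUA : ∀ u ∈ U, ‖u‖ ≤ A := fun u ⟨g, hg⟩ => KK_norm_le T hg.1
  have hPB : ∀ y ∈ Phi, ‖y‖ ≤ B := fun y ⟨g, hg⟩ => KO_norm_le T hg.1
  have hpair : ∀ y ∈ Phi, ∀ u ∈ U, ∃ k : ℤ, inner ℝ y u = (k : ℝ) := by
    rintro y ⟨h, hy⟩ u ⟨g, hu⟩
    have h1 := pairing hm hH T hu hy
    rcases (abs_eq (by norm_num : (0:ℝ) ≤ 1)).mp h1 with h2 | h2
    · exact ⟨1, by rw [h2]; simp⟩
    · exact ⟨-1, by rw [h2]; simp⟩
  have hPhiSpan : ∀ z : E, (∀ y ∈ Phi, inner ℝ y z = 0) → z = 0 := by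
    intro z hz
    have h1 : ‖T.symm z‖ ≤ 0 := norming_KO T z (fun y h hy => (hz y ⟨h, hy⟩).le)
    have h2 : T.symm z = 0 := norm_le_zero_iff.mp h1
    simpa using h2
  have hUSpan : ∀ z : E, (∀ y ∈ U, inner ℝ y z = 0) → z = 0 := by
    intro z hz
    have h1 : ‖psi T z‖ ≤ 0 := norming_KK T z le_rfl (fun y h hy => (hz y ⟨h, hy⟩).le)
    have h2 := norm_le_psi T z
    have h3 : ‖psi T z‖ = 0 := le_antisymm h1 (norm_nonneg _)
    rw [h3, mul_zero] at h2
    exact norm_le_zero_iff.mp h2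
  let L : Submodule ℤ E := Submodule.span ℤ U
  have hLint : ∀ x ∈ L, ∀ y ∈ Phi, ∃ k : ℤ, inner ℝ y x = (k : ℝ) := by
    intro x hx y hy
    induction hx using Submodule.span_induction with
    | mem x hx => exact hpair y hy x hx
    | zero => exact ⟨0, by simp⟩
    | add a b _ _ ha hb =>
      obtain ⟨k, hk⟩ := ha
      obtain ⟨l, hl⟩ := hb
      exact ⟨k + l, by rw [inner_add_right, hk, hl]; push_cast; ring⟩
    | smul n a _ ha =>
      obtain ⟨k, hk⟩ := ha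
      refine ⟨n * k, ?_⟩
      rw [← Int.cast_smul_eq_zsmul ℝ n a, real_inner_smul_right, hk]
      push_cast; ring
  have hdisc : DiscreteTopology L := discrete_of_int L Phi hPB hPhiSpan hLint
  have htop : Submodule.span ℝ (L : Set E) = ⊤ := by
    rw [← Submodule.orthogonal_eq_bot_iff, Submodule.eq_bot_iff]
    intro z hz
    apply hUSpan
    intro y hy
    exact hz y (Submodule.subset_span (Submodule.subset_span hy))
  have hZ : IsZLattice ℝ L := ⟨htop⟩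
  have hfree : Module.Free ℤ L := ZLattice.module_free ℝ L
  have hfin : Module.Finite ℤ L := ZLattice.module_finite ℝ L
  have hrank : Module.finrank ℤ L = m := by
    rw [ZLattice.rank ℝ L]
    simp [E]
  let b0 : Module.Basis (Fin m) ℤ L := Module.finBasisOfFinrankEq ℤ L hrank
  let v : Module.Basis (Fin m) ℝ E := b0.ofZLatticeBasis ℝ L
  have hvL : ∀ i, v i ∈ L := by
    intro i
    simp only [v, Module.Basis.ofZLatticeBasis_apply]
    exact (b0 i).2
  have hUrepr : ∀ u ∈ U, ∀ i, ∃ k : ℤ, v.repr u i = (k : ℝ) := by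
    intro u hu i
    refine ⟨b0.repr ⟨u, Submodule.subset_span hu⟩ i, ?_⟩
    exact Module.Basis.ofZLatticeBasis_repr_apply ℝ L b0 ⟨u, Submodule.subset_span hu⟩ i
  have hPint : ∀ y ∈ Phi, ∀ i, ∃ k : ℤ, inner ℝ y (v i) = (k : ℝ) :=
    fun y hy i => hLint _ (hvL i) y hy
  -- the two families of cosets
  let SX : (Fin m → ZMod 6) → Set E := fun a =>
    {x | ∀ i, ∃ k : ℤ, v.repr x i = (k : ℝ) ∧ (k : ZMod 6) = a i}
  let SY : (Fin m → ZMod 6) → Set E := fun b =>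
    {y | ∀ i, ∃ k : ℤ, inner ℝ y (v i) = (k : ℝ) ∧ (k : ZMod 6) = b i}
  have hSXne : ∀ a, (SX a).Nonempty := by
    intro a
    refine ⟨v.equivFun.symm (fun i => ((a i).val : ℝ)), fun i => ⟨(a i).val, ?_, ?_⟩⟩
    · rw [← Module.Basis.equivFun_apply, LinearEquiv.apply_symm_apply]
      simp
    · simp
  have hSYne : ∀ b, (SY b).Nonempty := by
    intro b
    let φ : E →ₗ[ℝ] ℝ := ∑ i, ((b i).val : ℝ) • v.coord i
    refine ⟨(InnerProductSpace.toDual ℝ E).symm (LinearMap.toContinuousLinearMap φ),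
      fun i => ⟨(b i).val, ?_, ?_⟩⟩
    · rw [InnerProductSpace.toDual_symm_apply]
      simp [φ, Finsupp.single_apply]
    · simp
  have hδA : 0 < 36 * A^2 := by positivity
  have hδB : 0 < 36 * B^2 := by positivity
  choose xa hxa hxa2 using fun a => exists_near_min (SX a) (hSXne a) hδA
  choose yb hyb hyb2 using fun b => exists_near_min (SY b) (hSYne b) hδB
  have hxbound : ∀ a, ‖psi T (xa a)‖ ≤ 6 * A^2 := by
    intro a
    apply norming_KK T _ (by positivity)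
    intro u g hug
    have huU : u ∈ U := ⟨g, hug⟩
    have hmem : xa a - (6:ℝ) • u ∈ SX a := by
      intro i
      obtain ⟨k, hk, hk2⟩ := hxa a i
      obtain ⟨l, hl⟩ := hUrepr u huU i
      refine ⟨k - 6 * l, ?_, ?_⟩
      · rw [map_sub, map_smul, Finsupp.sub_apply, Finsupp.smul_apply, hk, hl]
        push_cast; simp
      · push_cast
        rw [hk2]
        have : (6 : ZMod 6) = 0 := by decide
        rw [this]; ring
    have h1 := hxa2 a _ hmem
    rw [norm_sub_sq_real, norm_smul, real_inner_smul_right] at h1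
    have h2 : ‖u‖^2 ≤ A^2 := pow_le_pow_left₀ (norm_nonneg _) (hUA u huU) 2
    have h3 : (‖(6:ℝ)‖ * ‖u‖)^2 = 36 * ‖u‖^2 := by
      rw [Real.norm_eq_abs, abs_of_pos (by norm_num : (0:ℝ) < 6)]; ring
    rw [h3] at h1
    rw [real_inner_comm]
    linarith
  have hybound : ∀ b, ‖T.symm (yb b)‖ ≤ 6 * B^2 := by
    intro b
    apply norming_KO T _
    intro f g hfg
    have hfP : f ∈ Phi := ⟨g, hfg⟩
    have hmem : yb b - (6:ℝ) • f ∈ SY b := by
      intro i
      obtain ⟨k, hk, hk2⟩ := hyb b i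
      obtain ⟨l, hl⟩ := hPint f hfP i
      refine ⟨k - 6 * l, ?_, ?_⟩
      · rw [inner_sub_left, real_inner_smul_left, hk, hl]
        push_cast; ring
      · push_cast
        rw [hk2]
        have : (6 : ZMod 6) = 0 := by decide
        rw [this]; ring
    have h1 := hyb2 b _ hmem
    rw [norm_sub_sq_real, norm_smul, real_inner_smul_right] at h1
    have h2 : ‖f‖^2 ≤ B^2 := pow_le_pow_left₀ (norm_nonneg _) (hPB f hfP) 2
    have h3 : (‖(6:ℝ)‖ * ‖f‖)^2 = 36 * ‖f‖^2 := by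
      rw [Real.norm_eq_abs, abs_of_pos (by norm_num : (0:ℝ) < 6)]; ring
    rw [h3] at h1
    rw [real_inner_comm]
    linarith
  have hexp : ∀ x y : E, ∑ i, v.repr x i * inner ℝ y (v i) = inner ℝ y x := by
    intro x y
    conv_rhs => rw [← v.sum_repr x]
    rw [inner_sum]
    exact Finset.sum_congr rfl fun i _ => by rw [real_inner_smul_right]
  obtain ⟨a, b, hab⟩ := exists_large_pairing m hm (fun a i => v.repr (xa a) i)
    (fun b i => inner ℝ (yb b) (v i)) (by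
      intro a b
      choose k hk hk2 using hxa a
      choose l hl hl2 using hyb b
      refine ⟨∑ i, k i * l i, ?_, ?_⟩
      · push_cast
        exact Finset.sum_congr rfl fun i _ => by rw [hk, hl]
      · push_cast
        exact Finset.sum_congr rfl fun i _ => by rw [hk2, hl2])
  rw [hexp] at hab
  have hpair2 : |inner ℝ (yb b) (xa a)| ≤ 36 * (A*B)^2 := by
    have h1 : inner ℝ (yb b) (xa a) = psi T (xa a) (T.symm (yb b)) := by
      rw [psi_apply, real_inner_comm]; simp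
    rw [h1]
    calc |psi T (xa a) (T.symm (yb b))| ≤ ‖psi T (xa a)‖ * ‖T.symm (yb b)‖ :=
          (psi T (xa a)).le_opNorm _
      _ ≤ (6 * A^2) * (6 * B^2) :=
          mul_le_mul (hxbound a) (hybound b) (norm_nonneg _) (by positivity)
      _ = 36 * (A*B)^2 := by ring
  have hfinal : (m:ℝ) ≤ (17 * (A * B))^2 := by
    have : 0 ≤ (A*B)^2 := by positivity
    nlinarith
  exact Real.sqrt_le_iff.mpr ⟨by positivity, hfinal⟩

end Main

end Pool.Agent.H31
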